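import Pool.Agent.Q17.FT.Stm
import Pool.Agent.Q261.RB.GCB
import Pool.Agent.Q17.DC.All
import Pool.Agent.Q17.TP.Fin

/-!
# Automorphisms trivial on the roots of unity of order prime to `p` stabilise the blocks (job GCP)
-/

set_option autoImplicit false
set_option linter.all false

open scoped Classical

noncomputable section

namespace Pool.Agent.Q150.FT

open Pool.Agent.H254R3.IN hiding NN
open Pool.Agent.Q17.AM
open Pool.Agent.Q17.DC
open Pool.Agent.Q17.FT

/-- the coefficients of a block idempotent vanish on the `p`-singular elements -/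
theorem coeff_sing {G : Type} [Group G] [Fintype G] (p : ℕ) [Fact p.Prime]
    (O : ValuationSubring ℂ) (hpO : (p : ℂ) ∈ O.nonunits) (B : Set (G → ℂ)) (hB : IsBlock O B)
    (x : G) (hx : p ∣ orderOf x) : blockCoeff B x = 0 := by
  obtain ⟨a, b, k, hab, hcom, ha, hb, -, -⟩ := Pool.Agent.Q17.TC.p_parts p x⁻¹
  by_cases ha1 : a = 1
  · rw [ha1, one_mul] at hab
    rw [← orderOf_inv, hab] at hx
    exact absurd hx hb
  · have h3 := Pool.Agent.Q17.DC.s_sect G p O hpO B hB dl (by
      intro g y
      unfold dl
      have e : y * g * y⁻¹ = 1 ↔ g = 1 := conj_eq_one_iff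
      simp only [e]) (by
      intro g
      unfold dl
      split_ifs
      · exact isIntegral_one
      · exact isIntegral_zero) a ⟨k, ha⟩ (by
      intro u _ hu
      unfold dl
      rw [if_neg]
      intro h
      apply ha1
      have h4 : a = u⁻¹ := eq_inv_of_mul_eq_one_left h
      have h5 : orderOf a = orderOf u := by rw [h4, orderOf_inv]
      rw [← h5, ha] at hu
      have h6 : k = 0 := by
        by_contra h0
        exact hu (dvd_pow_self p h0)
      rw [h6, pow_zero, orderOf_eq_one_iff] at ha
      exact ha) b hcom hb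
    have h7 : ∑ t : G, blockCoeff B t * dl (a * b * t) = blockCoeff B x := by
      rw [Finset.sum_eq_single x]
      · rw [← hab]
        unfold dl
        rw [inv_mul_cancel, if_pos rfl, mul_one]
      · intro t _ ht
        unfold dl
        rw [← hab, if_neg, mul_zero]
        intro h8
        exact ht (inv_mul_eq_one.mp h8).symm
      · intro h
        exact absurd (Finset.mem_univ x) h
    rw [h7] at h3
    exact h3

/-- the automorphism fixes the coefficients of the block idempotents -/
theorem coeff_fix {G : Type} [Group G] [Fintype G] (p : ℕ) [hp : Fact p.Prime]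
    (O : ValuationSubring ℂ) (hpO : (p : ℂ) ∈ O.nonunits) (B : Set (G → ℂ)) (hB : IsBlock O B)
    (s : ℂ ≃+* ℂ)
    (hs : ∀ ζ : ℂ, ζ ^ (Nat.card G / p ^ (Nat.card G).factorization p) = 1 → s ζ = ζ) (x : G) :
    s (blockCoeff B x) = blockCoeff B x := by
  by_cases hx : p ∣ orderOf x
  · rw [coeff_sing p O hpO B hB x hx, map_zero]
  · have hc : 0 < Nat.card G := Nat.card_pos
    obtain ⟨k, hk⟩ := Pool.Agent.Q17.TP.exp_of s (Nat.card G) hc
    have hprod := Nat.ordProj_mul_ordCompl_eq_self (Nat.card G) p
    have hdvd : orderOf x ∣ Nat.card G / p ^ (Nat.card G).factorization p := by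
      have h1 : orderOf x ∣ Nat.card G := orderOf_dvd_natCard x
      rw [← hprod] at h1
      have h2 : Nat.Coprime (orderOf x) (p ^ (Nat.card G).factorization p) :=
        (Nat.Coprime.pow_left _ ((Nat.Prime.coprime_iff_not_dvd hp.out).mpr hx)).symm
      exact h2.dvd_of_dvd_mul_left h1
    have hpow : x ^ k = x := by
      have h0 : orderOf x ≠ 0 := (orderOf_pos x).ne'
      have h1 := Complex.isPrimitiveRoot_exp (orderOf x) h0
      have h2 : Complex.exp (2 * Real.pi * Complex.I / (orderOf x : ℕ)) ^
          (Nat.card G / p ^ (Nat.card G).factorization p) = 1 :=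
        h1.pow_eq_one_iff_dvd _ |>.mpr hdvd
      have h3 : Complex.exp (2 * Real.pi * Complex.I / (orderOf x : ℕ)) ^ (Nat.card G) = 1 :=
        h1.pow_eq_one_iff_dvd _ |>.mpr (orderOf_dvd_natCard x)
      have h4 := hk _ h3
      rw [hs _ h2] at h4
      have h5 : Complex.exp (2 * Real.pi * Complex.I / (orderOf x : ℕ)) ^ 1 =
          Complex.exp (2 * Real.pi * Complex.I / (orderOf x : ℕ)) ^ k := by
        rw [pow_one]
        exact h4
      have h6 : 1 ≡ k [MOD orderOf x] := by
        have hfin : IsOfFinOrder (Complex.exp (2 * Real.pi * Complex.I / (orderOf x : ℕ))) :=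
          isOfFinOrder_iff_pow_eq_one.mpr ⟨orderOf x, orderOf_pos x, h1.pow_eq_one⟩
        have h7 := hfin.pow_eq_pow_iff_modEq.mp h5
        rw [← h1.eq_orderOf] at h7
        exact h7
      have h8 := pow_eq_pow_iff_modEq.mpr h6
      rw [pow_one] at h8
      exact h8.symm
    rw [blockCoeff_eq hB.irr x, map_mul, map_sum, map_inv₀, map_natCast]
    congr 1
    refine Finset.sum_congr rfl fun χ hχ => ?_
    have hirr : IsIrr χ := mem_Irr.mp (Finset.mem_filter.mp hχ).1
    rw [map_mul, Pool.Agent.Q17.TC.gal_char hk hirr (pow_card_eq_one'),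
      Pool.Agent.Q17.TC.gal_char hk hirr (pow_card_eq_one'), one_pow, inv_pow, hpow]

/-- job GCP of project FT of helper17 -/
theorem t_GCP : S_GCP := by
  intro G _ _ p hp O hpO B hB s hs
  have key : ∀ χ : G → ℂ, IsIrr χ → (χ ∈ B ↔ (fun g => s (χ g)) ∈ B) := by
    intro χ hχ
    have h1 := Om_blockCoeff hB.irr hχ
    have h2 := Om_blockCoeff hB.irr (Pool.Agent.Q17.TC.irr_gal s hχ)
    have h3 : Om (blockCoeff B) (fun g => s (χ g)) = s (Om (blockCoeff B) χ) := by
      unfold Om
      rw [map_div₀, map_sum]
      congr 1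
      refine Finset.sum_congr rfl fun g _ => ?_
      rw [map_mul, coeff_fix p O hpO B hB s hs g]
    rw [h1, h2] at h3
    constructor
    · intro h
      by_contra hcon
      rw [if_pos h, if_neg hcon, map_one] at h3
      exact zero_ne_one h3
    · intro h
      by_contra hcon
      rw [if_pos h, if_neg hcon, map_zero] at h3
      exact one_ne_zero h3
  intro χ
  constructor
  · intro h
    exact (key χ (hB.irr χ h)).mp h
  · intro h
    have h1 : IsIrr χ := by
      have h2 := Pool.Agent.Q17.TC.irr_gal s.symm (hB.irr _ h)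
      have h3 : (fun g => s.symm ((fun g => s (χ g)) g)) = χ := by
        funext g
        exact s.symm_apply_apply _
      rw [h3] at h2
      exact h2
    exact (key χ h1).mpr h

end Pool.Agent.Q150.FT
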