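import Pool.Agent.Q283.FT.Stm2
import Pool.Agent.Q38.EN.EEX

/-!
# Project FT of helper283, job SBM: the subspace of the classes with the local conditions (by helper150)
-/

set_option autoImplicit false

namespace Pool.Agent.Q150.FT

open NumberField IsDedekindDomain Finset
open Pool.Agent.Q7.LK Pool.Agent.Q283.FT Pool.Agent.Q14.LK
open Pool.Agent.Q283.LQ (Sm nS)
open Pool.Agent.Q38.EN (cls_div)

section

variable {F : Type} [Field F] [NumberField F]
variable {ζ : F} {y f : ℕ} {u r : Fin f → F} {π : HeightOneSpectrum (𝓞 F) → F}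
  {g : (Fin f → ZMod 2) → (Fin f → ZMod 2) → ZMod 2}

/-- products of classes -/
theorem nn_add (hB : S_BAS) (B : Base 2 ζ y f u r π g) {a a' : F} {c c' d d' : Fin f → ZMod 2}
    (hN : Nn 2 y (a * mon r c * mon u d)) (hN' : Nn 2 y (a' * mon r c' * mon u d')) :
    Nn 2 y (a * a' * mon r (c + c') * mon u (d + d')) := by
  haveI : Fact (Nat.Prime 2) := ⟨Nat.prime_two⟩
  obtain ⟨z, hz, h1⟩ := mon_add B.re c c'
  obtain ⟨w, hw, h2⟩ := mon_add B.ue d d'
  refine nn_of_mul_pp hB (mul_ne_zero hz hw) ?_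
  have h3 : a * a' * mon r (c + c') * mon u (d + d') * (z * w) ^ 2 =
      (a * mon r c * mon u d) * (a' * mon r c' * mon u d') := by
    rw [mul_pow]
    calc a * a' * mon r (c + c') * mon u (d + d') * (z ^ 2 * w ^ 2)
        = a * a' * (mon r (c + c') * z ^ 2) * (mon u (d + d') * w ^ 2) := by ring
      _ = a * a' * (mon r c * mon r c') * (mon u d * mon u d') := by rw [h1, h2]
      _ = _ := by ring
  rw [h3]
  exact nn_mul hB hN hN'

/-- **JOB SBM.** -/
theorem sbm (hB : S_BAS) : S_SBM := by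
  classical
  intro F _ _ ζ hζ y f u r π B A hL
  haveI : Fact (Nat.Prime 2) := ⟨Nat.prime_two⟩
  obtain ⟨P, hP⟩ : ∃ P : (Fin f → U2) × (Fin f → U2) → Prop, P = fun z =>
      ∃ a b : F, a ≠ 0 ∧ b ≠ 0 ∧
        Nn 2 y (a * mon r (fun t => (z.2 t).1) * mon u (fun t => (z.1 t).1)) ∧
        Nn 2 y (b * mon r (fun t => (z.2 t).2) * mon u (fun t => (z.1 t).2)) ∧
        ∀ v : HeightOneSpectrum (𝓞 F), Sm y v → A v a b := ⟨_, rfl⟩
  have hadd : ∀ x x', P x → P x' → P (x + x') := by
    rw [hP]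
    rintro x x' ⟨a, b, ha, hb, hN, hM, hA⟩ ⟨a', b', ha', hb', hN', hM', hA'⟩
    exact ⟨a * a', b * b', mul_ne_zero ha ha', mul_ne_zero hb hb', nn_add hB B hN hN',
      nn_add hB B hM hM', fun v hv => hL.mul v a b a' b' hv (hA v hv) (hA' v hv)⟩
  have hzero : P 0 := by
    rw [hP]
    have h1 : Nn 2 y ((1 : F) * mon r (0 : Fin f → ZMod 2) * mon u (0 : Fin f → ZMod 2)) := by
      rw [mon_zero, mon_zero, mul_one, mul_one]
      exact nn_one hB y
    exact ⟨1, 1, one_ne_zero, one_ne_zero, h1, h1,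
      fun v hv => hL.pow v 1 1 hv (lpw_one hB v) (lpw_one hB v)⟩
  let M : AddSubmonoid ((Fin f → U2) × (Fin f → U2)) :=
    { carrier := {x | P x}
      add_mem' := fun {x x'} hx hx' => hadd x x' hx hx'
      zero_mem' := hzero }
  let E : Submodule (ZMod 2) ((Fin f → U2) × (Fin f → U2)) :=
    { M with
      smul_mem' := fun c x hx => by
        have h1 : c • x = c.val • x := by
          rw [← Nat.cast_smul_eq_nsmul (ZMod 2), ZMod.natCast_zmod_val]
        change c • x ∈ M
        rw [h1]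
        exact M.nsmul_mem hx _ }
  refine ⟨E, ?_⟩
  intro a b x x' ha hb hN hM
  have hmem : (((fun t => (x.2 t, x'.2 t)), fun t => (x.1 t, x'.1 t)) :
      (Fin f → U2) × (Fin f → U2)) ∈ E ↔ P ((fun t => (x.2 t, x'.2 t)), fun t => (x.1 t, x'.1 t)) :=
    Iff.rfl
  rw [hmem, hP]
  constructor
  · rintro ⟨a', b', ha', hb', hN', hM', hA'⟩ v hv
    have h1 := (cls_div hB B ha' hN hN').2 v hv
    have h2 := (cls_div hB B hb' hM hM').2 v hv
    have h3 := hL.mul v a' b' (a / a') (b / b') hv (hA' v hv) (hL.pow v _ _ hv h1 h2)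
    have h4 : a' * (a / a') = a := by field_simp
    have h5 : b' * (b / b') = b := by field_simp
    rwa [h4, h5] at h3
  · intro h
    exact ⟨a, b, ha, hb, hN, hM, h⟩

end

end Pool.Agent.Q150.FT
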