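import Pool.Agent.Q283.FT.Stm2
import Pool.Agent.Q176.EN.SSX

/-!
# Project FT of helper283, job SXX: the classes are the solutions of the table (by helper150)
-/

set_option autoImplicit false
set_option linter.unusedSectionVars false

namespace Pool.Agent.Q150.FT

open NumberField IsDedekindDomain Finset
open Pool.Agent.Q7.LK Pool.Agent.Q123.LK Pool.Agent.Q283.FT
open Pool.Agent.Q176.EN (vl_rel sum_ite_q sum_ite_none vl_D sy_formula Rl rl_uniq rl_eqv el el_ne el_rl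
  nn_rl vl_gen)
open Pool.Agent.Q283.LQ (Sm Box Nest nS)

variable {F : Type} [Field F] [NumberField F]

/-- the first components -/
def cX {f k : ℕ} (X : (Fin f → U2) × (Fin k → U2)) : (Fin f → ZMod 2) × (Fin k → ZMod 2) :=
  (fun t => (X.1 t).1, fun j => (X.2 j).1)

/-- the second components -/
def cY {f k : ℕ} (X : (Fin f → U2) × (Fin k → U2)) : (Fin f → ZMod 2) × (Fin k → ZMod 2) :=
  (fun t => (X.1 t).2, fun j => (X.2 j).2)

theorem ext_c {f k : ℕ} {X X' : (Fin f → U2) × (Fin k → U2)} (h : cX X = cX X') (h' : cY X = cY X') :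
    X = X' := by
  refine Prod.ext (funext fun t => Prod.ext ?_ ?_) (funext fun j => Prod.ext ?_ ?_)
  · exact congrFun (congrArg Prod.fst h) t
  · exact congrFun (congrArg Prod.fst h') t
  · exact congrFun (congrArg Prod.snd h) j
  · exact congrFun (congrArg Prod.snd h') j

/-- the first test element -/
def Ea (e : Fin 3 → F) (D a : F) (x : U2) : F :=
  a * D ^ x.1.val * (df e 2 ^ (x.1 + x.2).val * df e 1 ^ x.2.val)

/-- the second test element -/
def Eb (e : Fin 3 → F) (D b : F) (x : U2) : F :=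
  b * D ^ x.2.val * (df e 2 ^ (x.1 + x.2).val * df e 0 ^ x.1.val)

theorem df_twi (D : F) (e : Fin 3 → F) (l : Fin 3) : df (twi D e) l = D * df e l := by
  unfold df twi
  split_ifs <;> ring

theorem z2 : ∀ x : ZMod 2, x = 0 ∨ x = 1 := by decide

theorem tx_iff (hB : S_BAS) {v : HeightOneSpectrum (𝓞 F)} {e : Fin 3 → F} {D a b : F} (hD : D ≠ 0) :
    TX v (twi D e) a b ↔ ∃ x : U2, Lpw 2 v (Ea e D a x) ∧ Lpw 2 v (Eb e D b x) := by
  haveI : Fact (Nat.Prime 2) := ⟨Nat.prime_two⟩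
  have v0 : (0 : ZMod 2).val = 0 := rfl
  have v1 : (1 : ZMod 2).val = 1 := rfl
  have v00 : ((0 : ZMod 2) + 0).val = 0 := rfl
  have v01 : ((0 : ZMod 2) + 1).val = 1 := rfl
  have v10 : ((1 : ZMod 2) + 0).val = 1 := rfl
  have v11 : ((1 : ZMod 2) + 1).val = 0 := rfl
  have e1 : ∀ g h c : F, Eqv 2 (c * (D * g * (D * h))) (c * D ^ (0 : ZMod 2).val * (h ^ 1 * g ^ 1)) := by
    intro g h c
    refine ⟨D, hD, ?_⟩
    rw [v0]
    ring
  unfold TX
  simp only [df_twi]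
  constructor
  · rintro (⟨h1, h2⟩ | ⟨h1, h2⟩ | ⟨h1, h2⟩ | ⟨h1, h2⟩)
    · refine ⟨(0, 0), ?_, ?_⟩
      · unfold Ea
        simp only [v0, v00, pow_zero, mul_one]
        exact h1
      · unfold Eb
        simp only [v0, v00, pow_zero, mul_one]
        exact h2
    · refine ⟨(0, 1), ?_, ?_⟩
      · unfold Ea
        simp only [v01, v1]
        exact lpw_eqv hB (eqv_symm (e1 (df e 1) (df e 2) a)) h1
      · unfold Eb
        simp only [v01, v1, v0, pow_one, pow_zero, mul_one]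
        rw [mul_assoc]
        exact h2
    · refine ⟨(1, 0), ?_, ?_⟩
      · unfold Ea
        simp only [v10, v1, v0, pow_one, pow_zero, mul_one]
        rw [mul_assoc]
        exact h1
      · unfold Eb
        simp only [v10, v1]
        exact lpw_eqv hB (eqv_symm (e1 (df e 0) (df e 2) b)) h2
    · refine ⟨(1, 1), ?_, ?_⟩
      · unfold Ea
        simp only [v11, v1, pow_one, pow_zero, one_mul]
        rw [mul_assoc]
        exact h1
      · unfold Eb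
        simp only [v11, v1, pow_one, pow_zero, one_mul]
        rw [mul_assoc]
        exact h2
  · rintro ⟨⟨x, x'⟩, h1, h2⟩
    unfold Ea at h1
    unfold Eb at h2
    rcases z2 x with rfl | rfl <;> rcases z2 x' with rfl | rfl
    · left
      simp only [v0, v00, pow_zero, mul_one] at h1 h2
      exact ⟨h1, h2⟩
    · right; left
      refine ⟨?_, ?_⟩
      · simp only [v01, v1] at h1
        exact lpw_eqv hB (e1 (df e 1) (df e 2) a) h1
      · simp only [v01, v1, v0, pow_one, pow_zero, mul_one] at h2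
        rw [← mul_assoc]
        exact h2
    · right; right; left
      refine ⟨?_, ?_⟩
      · simp only [v10, v1, v0, pow_one, pow_zero, mul_one] at h1
        rw [← mul_assoc]
        exact h1
      · simp only [v10, v1] at h2
        exact lpw_eqv hB (e1 (df e 0) (df e 2) b) h2
    · right; right; right
      refine ⟨?_, ?_⟩
      · simp only [v11, v1, pow_one, pow_zero, one_mul] at h1
        rw [← mul_assoc]
        exact h1
      · simp only [v11, v1, pow_one, pow_zero, one_mul] at h2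
        rw [← mul_assoc]
        exact h2

theorem zneg : ∀ z : ZMod 2, -z = z := by decide

theorem dot_sub {f : ℕ} (φ x w : Fin f → ZMod 2) (s : ZMod 2) :
    dot φ (x - s • w) = dot φ x + s * dot φ w := by
  have h2 : ∀ x : ZMod 2, -x = x := by decide
  unfold dot
  rw [Finset.mul_sum, ← Finset.sum_add_distrib]
  refine Finset.sum_congr rfl fun l _ => ?_
  simp only [Pi.sub_apply, Pi.smul_apply, smul_eq_mul, sub_eq_add_neg, h2]
  ring

section

variable {ζ : F} {y f : ℕ} {u r : Fin f → F} {π : HeightOneSpectrum (𝓞 F) → F} {k : ℕ}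

theorem row_fst (t₀ : Fin f) (c : Fin 3 → Fin f → ZMod 2) (w : Fin f → ZMod 2)
    (𝓛 : Submodule (ZMod 2) ((Fin f → U2) × (Fin f → U2))) (τ : Tab 2 f k)
    (X : (Fin f → U2) × (Fin k → U2)) (j : Fin k) :
    (rowL (dj t₀ c w 𝓛) (NT τ) τ.1 X j).1 =
      ∑ i, Mt (fun _ _ => 0) τ i j * ((X.2 i).1 + (X.2 j).1) +
      (dot (τ.1 j) (c 2) * ((X.2 j).1 + (X.2 j).2) + dot (τ.1 j) (c 1) * (X.2 j).2 +
        dot (τ.1 j) w * (X.2 j).1) + dot (τ.1 j) (cX X).1 := by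
  show (∑ i, NT τ j i • (X.2 i + X.2 j) + opT c w (τ.1 j) (X.2 j) + ∑ t, τ.1 j t • X.1 t).1 = _
  rw [Prod.fst_add, Prod.fst_add, Prod.fst_sum, Prod.fst_sum]
  rfl

theorem row_snd (t₀ : Fin f) (c : Fin 3 → Fin f → ZMod 2) (w : Fin f → ZMod 2)
    (𝓛 : Submodule (ZMod 2) ((Fin f → U2) × (Fin f → U2))) (τ : Tab 2 f k)
    (X : (Fin f → U2) × (Fin k → U2)) (j : Fin k) :
    (rowL (dj t₀ c w 𝓛) (NT τ) τ.1 X j).2 =
      ∑ i, Mt (fun _ _ => 0) τ i j * ((X.2 i).2 + (X.2 j).2) +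
      (dot (τ.1 j) (c 2) * ((X.2 j).1 + (X.2 j).2) + dot (τ.1 j) (c 0) * (X.2 j).1 +
        dot (τ.1 j) w * (X.2 j).2) + dot (τ.1 j) (cY X).1 := by
  show (∑ i, NT τ j i • (X.2 i + X.2 j) + opT c w (τ.1 j) (X.2 j) + ∑ t, τ.1 j t • X.1 t).2 = _
  rw [Prod.snd_add, Prod.snd_add, Prod.snd_sum, Prod.snd_sum]
  rfl

/-- the symbol of a test element -/
theorem sy_test (hB : S_BAS) (hSH1 : S_SH1) (hζ : IsPrimitiveRoot ζ 2)
    (B : Base 2 ζ y f u r π (fun _ _ => 0)) {e : Fin 3 → F} {c : Fin 3 → Fin f → ZMod 2} (hR : Rt e)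
    (hc : Dcl u e c) {D0 : F} {ψ w : Fin f → ZMod 2} (hD0 : D0 ≠ 0)
    (hw : Nn 2 y (D0 * mon r ψ * mon u w)) {q : Fin k → HeightOneSpectrum (𝓞 F)}
    (hq : Function.Injective q) (hS : ∀ i, ¬ Sm y (q i)) {τ : Tab 2 f k} (hτ : Tb ζ u π τ q) {D : F}
    (hfit : Fits 2 y D0 (fun _ => 1) q D) {a : F} (ha : a ≠ 0)
    {x : (Fin f → ZMod 2) × (Fin k → ZMod 2)} (h : Rl π u q a x) (j : Fin k) (l l' : Fin 3)
    (s s' : ZMod 2) :
    vl 2 (q j) (a * D ^ (x.2 j).val * (df e l ^ s.val * df e l' ^ s'.val)) = 0 ∧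
    sy 2 ζ (q j) (a * D ^ (x.2 j).val * (df e l ^ s.val * df e l' ^ s'.val)) =
      ∑ i, Mt (fun _ _ => 0) τ i j * (x.2 i + x.2 j) +
        (dot (τ.1 j) (c l) * s + dot (τ.1 j) (c l') * s' + dot (τ.1 j) w * x.2 j) +
        dot (τ.1 j) x.1 := by
  haveI : Fact (Nat.Prime 2) := ⟨Nat.prime_two⟩
  have hneg : ∀ z : ZMod 2, -z = z := fun z => zneg z
  have hdp : ¬ Dp 2 (q j) := fun h => hS j (sm_of_dp B.two h)
  have hs0 : (((x.2 j).val : ℕ) : ZMod 2) = -(x.2 j * ((fun _ : Fin k => (1 : ZMod 2)) j)⁻¹) := by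
    rw [ZMod.natCast_zmod_val, inv_one, mul_one, hneg]
  obtain ⟨h1, h2⟩ := sy_formula hB hSH1 hζ B hD0 hw (fun _ => 1) q (fun _ => one_ne_zero) hq hS τ hτ
    hfit ha h j hs0
  have hd0 : ∀ l, df e l ≠ 0 := by
    intro l
    unfold df
    split_ifs
    · exact sub_ne_zero.2 fun h => absurd (hR.inj h) (by decide)
    · exact sub_ne_zero.2 fun h => absurd (hR.inj h) (by decide)
    · exact sub_ne_zero.2 fun h => absurd (hR.inj h) (by decide)
  have hou : ∀ l, vl 2 (q j) (u l) = 0 := fun l => B.uo l _ (hS j)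
  have hvm : ∀ l, vl 2 (q j) (mon u (c l)) = 0 := fun l => vl_mon hB _ B.ue hou (c l)
  have hE : ∀ l, Eqv 2 (df e l * mon u (c l)) 1 := fun l =>
    eqv_one_of (mul_ne_zero (hd0 l) (mon_ne B.ue _)) (hc l) two_ne_zero
  have hvd : ∀ l, vl 2 (q j) (df e l) = 0 := by
    intro l
    have h3 := vl_eqv hB (q j) (hE l) one_ne_zero
    rw [vl_mul hB _ (hd0 l) (mon_ne B.ue _), hvm, add_zero, vl_one hB] at h3
    exact h3
  have hsd : ∀ l, sy 2 ζ (q j) (df e l) = dot (τ.1 j) (c l) := by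
    intro l
    have h3 := sy_eqv hB hζ hdp (hE l) one_ne_zero (vl_one hB _)
    rw [sy_mul hB hζ hdp (hd0 l) (mon_ne B.ue _) (hvd l) (hvm l), sy_mon hB hζ hdp B.ue hou,
      sy_lpw hB hζ hdp (lpw_one hB _)] at h3
    have h6 : (fun l => sy 2 ζ (q j) (u l)) = τ.1 j := funext fun l => hτ.1 j l
    rw [h6] at h3
    have h7 := eq_neg_of_add_eq_zero_left h3
    rw [h7, hneg]
  have haD : a * D ^ (x.2 j).val ≠ 0 := mul_ne_zero ha (pow_ne_zero _ hfit.ne)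
  have hp1 : df e l ^ s.val ≠ 0 := pow_ne_zero _ (hd0 l)
  have hp2 : df e l' ^ s'.val ≠ 0 := pow_ne_zero _ (hd0 l')
  have hv1 : vl 2 (q j) (df e l ^ s.val) = 0 := by rw [vl_pow hB _ (hd0 l), hvd, mul_zero]
  have hv2 : vl 2 (q j) (df e l' ^ s'.val) = 0 := by rw [vl_pow hB _ (hd0 l'), hvd, mul_zero]
  have hv3 : vl 2 (q j) (df e l ^ s.val * df e l' ^ s'.val) = 0 := by
    rw [vl_mul hB _ hp1 hp2, hv1, hv2, add_zero]
  refine ⟨?_, ?_⟩
  · rw [vl_mul hB _ haD (mul_ne_zero hp1 hp2), h1, hv3, add_zero]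
  · rw [sy_mul hB hζ hdp haD (mul_ne_zero hp1 hp2) h1 hv3, sy_mul hB hζ hdp hp1 hp2 hv1 hv2, h2,
      sy_pow hB hζ hdp (hd0 l) (hvd l), sy_pow hB hζ hdp (hd0 l') (hvd l'), hsd, hsd,
      ZMod.natCast_zmod_val, ZMod.natCast_zmod_val, dot_sub]
    simp only [inv_one, mul_one, sub_eq_add_neg, hneg]
    have h8 : ∑ i, (x.2 i + x.2 j) * Mt (fun _ _ => 0) τ i j =
        ∑ i, Mt (fun _ _ => 0) τ i j * (x.2 i + x.2 j) :=
      Finset.sum_congr rfl fun i _ => mul_comm _ _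
    rw [h8]
    ring

/-- the condition at the large primes is the row -/
theorem ram_iff (hB : S_BAS) (hSH1 : S_SH1) (hζ : IsPrimitiveRoot ζ 2)
    (B : Base 2 ζ y f u r π (fun _ _ => 0)) {e : Fin 3 → F} {c : Fin 3 → Fin f → ZMod 2} (hR : Rt e)
    (hc : Dcl u e c) {D0 : F} {ψ w : Fin f → ZMod 2} (hD0 : D0 ≠ 0)
    (hw : Nn 2 y (D0 * mon r ψ * mon u w)) {q : Fin k → HeightOneSpectrum (𝓞 F)}
    (hq : Function.Injective q) (hS : ∀ i, ¬ Sm y (q i)) {τ : Tab 2 f k} (hτ : Tb ζ u π τ q) {D : F}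
    (hfit : Fits 2 y D0 (fun _ => 1) q D) {a b : F} (ha : a ≠ 0) (hb : b ≠ 0)
    {X : (Fin f → U2) × (Fin k → U2)} (h : Rl π u q a (cX X)) (h' : Rl π u q b (cY X)) (t₀ : Fin f)
    (𝓛 : Submodule (ZMod 2) ((Fin f → U2) × (Fin f → U2))) (j : Fin k) :
    TX (q j) (twi D e) a b ↔ rowL (dj t₀ c w 𝓛) (NT τ) τ.1 X j = 0 := by
  haveI : Fact (Nat.Prime 2) := ⟨Nat.prime_two⟩
  have hneg : ∀ z : ZMod 2, -z = z := fun z => zneg z
  have hdp : ¬ Dp 2 (q j) := fun h => hS j (sm_of_dp B.two h)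
  obtain ⟨va, sa⟩ := sy_test hB hSH1 hζ B hR hc hD0 hw hq hS hτ hfit ha h j 2 1
    ((X.2 j).1 + (X.2 j).2) (X.2 j).2
  obtain ⟨vb, sb⟩ := sy_test hB hSH1 hζ B hR hc hD0 hw hq hS hτ hfit hb h' j 2 0
    ((X.2 j).1 + (X.2 j).2) (X.2 j).1
  have hsa : sy 2 ζ (q j) (Ea e D a (X.2 j)) = (rowL (dj t₀ c w 𝓛) (NT τ) τ.1 X j).1 := by
    rw [row_fst]
    exact sa
  have hsb : sy 2 ζ (q j) (Eb e D b (X.2 j)) = (rowL (dj t₀ c w 𝓛) (NT τ) τ.1 X j).2 := by
    rw [row_snd]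
    exact sb
  have hva : vl 2 (q j) (Ea e D a (X.2 j)) = 0 := va
  have hvb : vl 2 (q j) (Eb e D b (X.2 j)) = 0 := vb
  have hd0 : ∀ l, df e l ≠ 0 := by
    intro l
    unfold df
    split_ifs
    · exact sub_ne_zero.2 fun h => absurd (hR.inj h) (by decide)
    · exact sub_ne_zero.2 fun h => absurd (hR.inj h) (by decide)
    · exact sub_ne_zero.2 fun h => absurd (hR.inj h) (by decide)
  have hEa0 : ∀ x, Ea e D a x ≠ 0 := fun x => mul_ne_zero (mul_ne_zero ha (pow_ne_zero _ hfit.ne))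
    (mul_ne_zero (pow_ne_zero _ (hd0 _)) (pow_ne_zero _ (hd0 _)))
  have hEb0 : ∀ x, Eb e D b x ≠ 0 := fun x => mul_ne_zero (mul_ne_zero hb (pow_ne_zero _ hfit.ne))
    (mul_ne_zero (pow_ne_zero _ (hd0 _)) (pow_ne_zero _ (hd0 _)))
  have hkey : ∀ E : F, E ≠ 0 → vl 2 (q j) E = 0 → (sy 2 ζ (q j) E = 0 ↔ Lpw 2 (q j) E) :=
    fun E h1 h2 => ((hB 2 F (q j)).2.2.2.2.2.2 hdp ζ hζ).2.2.2 E h1 h2
  rw [tx_iff hB hfit.ne]
  have hrow : rowL (dj t₀ c w 𝓛) (NT τ) τ.1 X j = 0 ↔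
      Lpw 2 (q j) (Ea e D a (X.2 j)) ∧ Lpw 2 (q j) (Eb e D b (X.2 j)) := by
    rw [← hkey _ (hEa0 _) hva, ← hkey _ (hEb0 _) hvb, hsa, hsb]
    constructor
    · intro h1
      rw [h1]
      exact ⟨rfl, rfl⟩
    · rintro ⟨h1, h2⟩
      exact Prod.ext h1 h2
  rw [hrow]
  constructor
  · rintro ⟨x, h1, h2⟩
    have hvD : vl 2 (q j) D = 1 := by
      rw [vl_D hfit (hS j)]
      exact sum_ite_q hq (fun _ => (1 : ZMod 2)) j
    have hou : ∀ l, vl 2 (q j) (u l) = 0 := fun l => B.uo l _ (hS j)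
    have hvd : ∀ l, vl 2 (q j) (df e l) = 0 := by
      intro l
      have h3 := vl_eqv hB (q j) (eqv_one_of (mul_ne_zero (hd0 l) (mon_ne B.ue _)) (hc l) two_ne_zero)
        one_ne_zero
      rw [vl_mul hB _ (hd0 l) (mon_ne B.ue _), vl_mon hB _ B.ue hou (c l), add_zero, vl_one hB] at h3
      exact h3
    have hgen : ∀ (a : F) (l l' : Fin 3) (m n n' : ℕ), a ≠ 0 →
        vl 2 (q j) (a * D ^ m * (df e l ^ n * df e l' ^ n')) = vl 2 (q j) a + m := by
      intro a l l' m n n' ha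
      have p1 : df e l ^ n ≠ 0 := pow_ne_zero _ (hd0 l)
      have p2 : df e l' ^ n' ≠ 0 := pow_ne_zero _ (hd0 l')
      rw [vl_mul hB _ (mul_ne_zero ha (pow_ne_zero _ hfit.ne)) (mul_ne_zero p1 p2),
        vl_mul hB _ ha (pow_ne_zero _ hfit.ne), vl_mul hB _ p1 p2, vl_pow hB _ (hd0 l),
        vl_pow hB _ (hd0 l'), vl_pow hB _ hfit.ne, hvd, hvd, hvD, mul_zero, mul_zero, mul_one,
        add_zero, add_zero]
    have e1 : vl 2 (q j) a = (X.2 j).1 := by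
      rw [vl_rel hB B q hS ha h (hS j)]
      exact sum_ite_q hq _ j
    have e2 : vl 2 (q j) b = (X.2 j).2 := by
      rw [vl_rel hB B q hS hb h' (hS j)]
      exact sum_ite_q hq _ j
    have g1 := lpw_vl hB h1
    have g2 := lpw_vl hB h2
    unfold Ea at g1
    unfold Eb at g2
    rw [hgen _ _ _ _ _ _ ha, e1, ZMod.natCast_zmod_val] at g1
    rw [hgen _ _ _ _ _ _ hb, e2, ZMod.natCast_zmod_val] at g2
    have k1 : x.1 = (X.2 j).1 := by
      rw [eq_neg_of_add_eq_zero_left g1, hneg]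
    have k2 : x.2 = (X.2 j).2 := by
      rw [eq_neg_of_add_eq_zero_left g2, hneg]
    have k3 : x = X.2 j := Prod.ext k1 k2
    rw [← k3]
    exact ⟨h1, h2⟩
  · intro h1
    exact ⟨_, h1⟩

/-- the coordinates of an element -/
theorem coord (hB : S_BAS) (B : Base 2 ζ y f u r π (fun _ _ => 0))
    {q : Fin k → HeightOneSpectrum (𝓞 F)} (hq : Function.Injective q) (hS : ∀ i, ¬ Sm y (q i))
    {a : F} (ha : a ≠ 0)
    (h0 : ∀ v : HeightOneSpectrum (𝓞 F), ¬ Sm y v → (∀ i, q i ≠ v) → vl 2 v a = 0) :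
    ∃ c : Fin f → ZMod 2, Rl π u q a (c, fun j => vl 2 (q j) a) := by
  classical
  haveI : Fact (Nat.Prime 2) := ⟨Nat.prime_two⟩
  have hπ : ∀ i, π (q i) ≠ 0 := fun i => (B.po (q i) (hS i)).1
  set Y : Fin k → ZMod 2 := fun j => vl 2 (q j) a with hY
  set P : F := ∏ j, π (q j) ^ (Y j).val with hP
  have hP0 : P ≠ 0 := Finset.prod_ne_zero_iff.2 fun j _ => pow_ne_zero _ (hπ j)
  have hev : ∀ v, ¬ Sm y v → vl 2 v (a * P⁻¹) = 0 := by
    intro v hv
    rw [vl_mul hB v ha (inv_ne_zero hP0), vl_inv hB v hP0, hP, vl_gen hB B q hS Y hv]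
    by_cases h : ∃ i, q i = v
    · obtain ⟨i, rfl⟩ := h
      rw [sum_ite_q hq, add_neg_cancel]
    · push Not at h
      rw [h0 v hv h, sum_ite_none h, neg_zero, add_zero]
  obtain ⟨c, hc⟩ := B.full _ (mul_ne_zero ha (inv_ne_zero hP0)) hev
  have hmc : mon u c ≠ 0 := mon_ne B.ue c
  have hc1 : Eqv 2 (a * P⁻¹ * mon u c) 1 :=
    eqv_one_of (mul_ne_zero (mul_ne_zero ha (inv_ne_zero hP0)) hmc) hc two_ne_zero
  refine ⟨c, ?_⟩
  show Eqv 2 (a * mon u c) P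
  have h1 := eqv_mul hc1 (eqv_refl (p := 2) P)
  rw [one_mul] at h1
  have h2 : a * P⁻¹ * mon u c * P = a * mon u c := by field_simp
  rwa [h2] at h1

/-- the class of a vector -/
theorem cl_eq (τ : Tab 2 f k) (X : (Fin f → U2) × (Fin k → U2)) : clL τ.1 X =
    ((fun t => (((∑ j, (cX X).2 j • τ.1 j, (cX X).1) : (Fin f → ZMod 2) × (Fin f → ZMod 2)).2 t,
      ((∑ j, (cY X).2 j • τ.1 j, (cY X).1) : (Fin f → ZMod 2) × (Fin f → ZMod 2)).2 t)),
    fun t => (((∑ j, (cX X).2 j • τ.1 j, (cX X).1) : (Fin f → ZMod 2) × (Fin f → ZMod 2)).1 t,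
      ((∑ j, (cY X).2 j • τ.1 j, (cY X).1) : (Fin f → ZMod 2) × (Fin f → ZMod 2)).1 t)) := by
  refine Prod.ext rfl ?_
  funext t
  show ∑ p, τ.1 p t • X.2 p = ((∑ j, (cX X).2 j • τ.1 j) t, (∑ j, (cY X).2 j • τ.1 j) t)
  refine Prod.ext ?_ ?_
  · rw [Prod.fst_sum]
    show _ = (∑ j, (cX X).2 j • τ.1 j) t
    rw [Finset.sum_apply]
    exact Finset.sum_congr rfl fun j _ => mul_comm (τ.1 j t) (X.2 j).1
  · rw [Prod.snd_sum]
    show _ = (∑ j, (cY X).2 j • τ.1 j) t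
    rw [Finset.sum_apply]
    exact Finset.sum_congr rfl fun j _ => mul_comm (τ.1 j t) (X.2 j).2

end

/-- **JOB SXX.** -/
theorem sxx (hB : S_BAS) (hSH1 : S_SH1) : S_SXX := by
  classical
  intro F _ _ i ζ hi hζ y f u r π B e c hR hc A 𝓛 hM D0 ψ w hD0 hw t₀ k q hq hS τ hτ D hfit N
  haveI : Fact (Nat.Prime 2) := ⟨Nat.prime_two⟩
  have hvD : ∀ j, vl 2 (q j) D = 1 := fun j => by
    rw [vl_D hfit (hS j)]
    exact sum_ite_q hq (fun _ => (1 : ZMod 2)) j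
  have hvD0 : ∀ v, ¬ Sm y v → (∀ i, q i ≠ v) → vl 2 v D = 0 := fun v hv h => by
    rw [vl_D hfit hv]
    exact sum_ite_none h _
  have hcl : ∀ (a b : F) (X : (Fin f → U2) × (Fin k → U2)), a ≠ 0 → b ≠ 0 → Rl π u q a (cX X) →
      Rl π u q b (cY X) → (clL τ.1 X ∈ 𝓛 ↔ ∀ v : HeightOneSpectrum (𝓞 F), Sm y v → A v a b) := by
    intro a b X ha hb h h'
    rw [cl_eq]
    exact hM a b (∑ j, (cX X).2 j • τ.1 j, (cX X).1) (∑ j, (cY X).2 j • τ.1 j, (cY X).1) ha hb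
      (nn_rl hB B hS hτ h) (nn_rl hB B hS hτ h')
  have hmem : ∀ X : (Fin f → U2) × (Fin k → U2), X ∈ Sel (dj t₀ c w 𝓛) (NT τ) τ.1 ↔
      clL τ.1 X ∈ 𝓛 ∧ ∀ j, rowL (dj t₀ c w 𝓛) (NT τ) τ.1 X j = 0 := by
    intro X
    constructor
    · rintro ⟨h1, h2⟩
      exact ⟨h1, fun j => congrFun h2 j⟩
    · rintro ⟨h1, h2⟩
      exact ⟨h1, funext h2⟩
  -- every class has coordinates
  have step1 : ∀ a b, CondP y A e D a b → ∃ X ∈ Sel (dj t₀ c w 𝓛) (NT τ) τ.1,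
      Rl π u q a (cX X) ∧ Rl π u q b (cY X) := by
    intro a b hab
    obtain ⟨ca, hca⟩ := coord hB B hq hS hab.ne.1 fun v hv h => (hab.unr v hv (hvD0 v hv h)).1
    obtain ⟨cb, hcb⟩ := coord hB B hq hS hab.ne.2 fun v hv h => (hab.unr v hv (hvD0 v hv h)).2
    obtain ⟨X, hX⟩ : ∃ X : (Fin f → U2) × (Fin k → U2),
        X = (fun t => (ca t, cb t), fun j => (vl 2 (q j) a, vl 2 (q j) b)) := ⟨_, rfl⟩
    have h1 : Rl π u q a (cX X) := by
      rw [hX]
      exact hca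
    have h2 : Rl π u q b (cY X) := by
      rw [hX]
      exact hcb
    refine ⟨X, (hmem X).2 ⟨(hcl a b X hab.ne.1 hab.ne.2 h1 h2).2 hab.loc, fun j => ?_⟩, h1, h2⟩
    exact (ram_iff hB hSH1 hζ B hR hc hD0 hw hq hS hτ hfit hab.ne.1 hab.ne.2 h1 h2 t₀ 𝓛 j).1
      (hab.ram (q j) (hS j) (by rw [hvD j]; exact one_ne_zero))
  -- every solution gives a class
  have step2 : ∀ a b X, a ≠ 0 → b ≠ 0 → X ∈ Sel (dj t₀ c w 𝓛) (NT τ) τ.1 → Rl π u q a (cX X) →
      Rl π u q b (cY X) → CondP y A e D a b := by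
    intro a b X ha hb hX h1 h2
    obtain ⟨hX1, hX2⟩ := (hmem X).1 hX
    refine ⟨⟨ha, hb⟩, ?_, ?_, ?_⟩
    · intro v hv hvd
      have hn : ∀ i, q i ≠ v := by
        rintro i rfl
        rw [hvD i] at hvd
        exact one_ne_zero hvd
      exact ⟨by rw [vl_rel hB B q hS ha h1 hv]; exact sum_ite_none hn _,
        by rw [vl_rel hB B q hS hb h2 hv]; exact sum_ite_none hn _⟩
    · intro v hv hvd
      by_cases h : ∃ i, q i = v
      · obtain ⟨j, rfl⟩ := h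
        exact (ram_iff hB hSH1 hζ B hR hc hD0 hw hq hS hτ hfit ha hb h1 h2 t₀ 𝓛 j).2 (hX2 j)
      · push Not at h
        exact absurd (hvD0 v hv h) hvd
    · exact (hcl a b X ha hb h1 h2).1 hX1
  have isPow_div : ∀ {a a' : F}, a' ≠ 0 → Eqv 2 a a' → IsPow 2 (a / a') := by
    intro a a' ha' h
    have h1 := eqv_mul h (eqv_refl (p := 2) a'⁻¹)
    rw [mul_inv_cancel₀ ha', ← div_eq_mul_inv] at h1
    exact isPow_of h1
  have eqv_div : ∀ {a a' : F}, a ≠ 0 → a' ≠ 0 → IsPow 2 (a / a') → Eqv 2 a a' := by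
    intro a a' ha ha' h
    have h1 := eqv_mul (eqv_one_of (div_ne_zero ha ha') h two_ne_zero) (eqv_refl (p := 2) a')
    rwa [div_mul_cancel₀ _ ha', one_mul] at h1
  constructor
  · rintro ⟨a, haP, hne, hall⟩
    have h1 : ∀ i, ∃ X ∈ Sel (dj t₀ c w 𝓛) (NT τ) τ.1, Rl π u q (a i).1 (cX X) ∧
        Rl π u q (a i).2 (cY X) := fun i => step1 _ _ (haP i)
    choose X hX hrl hrl' using h1
    have hbij : Function.Bijective (fun i : Fin N =>
        (⟨X i, hX i⟩ : Sel (dj t₀ c w 𝓛) (NT τ) τ.1)) := by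
      constructor
      · intro i i' h
        by_contra hii
        have h2 : X i = X i' := congrArg Subtype.val h
        have h3 := hrl i
        have h4 := hrl' i
        rw [h2] at h3 h4
        exact hne i i' hii ⟨isPow_div (haP i').ne.1 (rl_eqv B h3 (hrl i')),
          isPow_div (haP i').ne.2 (rl_eqv B h4 (hrl' i'))⟩
      · rintro ⟨X', hX'⟩
        have h2 := step2 (el π u q (cX X')) (el π u q (cY X')) X' (el_ne B hS _) (el_ne B hS _) hX'
          (el_rl B q _) (el_rl B q _)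
        obtain ⟨i, hi, hi'⟩ := hall _ _ h2
        refine ⟨i, Subtype.ext ?_⟩
        refine ext_c ?_ ?_
        · exact (rl_uniq hB B q hq hS (el_ne B hS _) (haP i).ne.1
            (eqv_div (el_ne B hS _) (haP i).ne.1 hi) (el_rl B q _) (hrl i)).symm
        · exact (rl_uniq hB B q hq hS (el_ne B hS _) (haP i).ne.2
            (eqv_div (el_ne B hS _) (haP i).ne.2 hi') (el_rl B q _) (hrl' i)).symm
    have h2 := Nat.card_congr (Equiv.ofBijective _ hbij)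
    rw [Nat.card_eq_fintype_card, Fintype.card_fin] at h2
    exact h2
  · intro hN
    have hfin : Finite (Sel (dj t₀ c w 𝓛) (NT τ) τ.1) := Subtype.finite
    obtain ⟨g⟩ : Nonempty (Fin N ≃ Sel (dj t₀ c w 𝓛) (NT τ) τ.1) := by
      rw [hN]
      exact ⟨(Finite.equivFin _).symm⟩
    refine ⟨fun i => (el π u q (cX (g i).1), el π u q (cY (g i).1)),
      fun i => step2 _ _ (g i).1 (el_ne B hS _) (el_ne B hS _) (g i).2 (el_rl B q _) (el_rl B q _),
      fun i j hij h => hij ?_, fun b b' hb => ?_⟩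
    · apply g.injective
      apply Subtype.ext
      exact ext_c (rl_uniq hB B q hq hS (el_ne B hS _) (el_ne B hS _)
        (eqv_div (el_ne B hS _) (el_ne B hS _) h.1) (el_rl B q _) (el_rl B q _))
        (rl_uniq hB B q hq hS (el_ne B hS _) (el_ne B hS _)
        (eqv_div (el_ne B hS _) (el_ne B hS _) h.2) (el_rl B q _) (el_rl B q _))
    · obtain ⟨X, hX, hrl, hrl'⟩ := step1 b b' hb
      refine ⟨g.symm ⟨X, hX⟩, ?_⟩
      change IsPow 2 (b / el π u q (cX (g (g.symm ⟨X, hX⟩)).1)) ∧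
        IsPow 2 (b' / el π u q (cY (g (g.symm ⟨X, hX⟩)).1))
      rw [g.apply_symm_apply]
      exact ⟨isPow_div (el_ne B hS _) (rl_eqv B hrl (el_rl B q _)),
        isPow_div (el_ne B hS _) (rl_eqv B hrl' (el_rl B q _))⟩

end Pool.Agent.Q150.FT
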